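import Pool.Agent.H70.LZ.Stm

set_option autoImplicit false

open Finset
open scoped commutatorElement

namespace H12.LZ

open H70.LZ

section basic

variable {R S : Type} [CommRing R] [Ring S] [Algebra R S] {c : ℕ} (A : Fil R S c)

include A

theorem anti : Antitone A.F := antitone_nat_of_succ_le A.anti

theorem eq_zero {j : ℕ} (hj : c < j) {x : S} (hx : x ∈ A.F j) : x = 0 := by
  have h1 := anti A hj hx
  rw [A.bot] at h1
  exact (Submodule.mem_bot R).mp h1

theorem pow_mem {x : S} (hx : x ∈ A.F 1) (i : ℕ) : x ^ i ∈ A.F i := by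
  induction i with
  | zero => rw [pow_zero]; exact A.one
  | succ i ih => rw [pow_succ]; exact A.mul i 1 _ _ ih hx

theorem isUnit_factorial {n : ℕ} (hn : n ≤ c) : IsUnit ((n.factorial : ℕ) : R) := by
  induction n with
  | zero => simp
  | succ n ih =>
    rw [Nat.factorial_succ, Nat.cast_mul]
    exact (A.inv (n + 1) (by omega) hn).mul (ih (by omega))

theorem inv_choose {n i j : ℕ} (hn : n ≤ c) (hij : i + j = n) :
    Ring.inverse (n.factorial : R) * (n.choose i : R) =
      Ring.inverse (i.factorial : R) * Ring.inverse (j.factorial : R) := by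
  have h1 : ((n.choose i : ℕ) : R) * (i.factorial : R) * (j.factorial : R) = (n.factorial : R) := by
    have h2 := Nat.choose_mul_factorial_mul_factorial (show i ≤ n by omega)
    have h3 : n - i = j := by omega
    rw [h3] at h2
    rw [← h2]
    push_cast
    ring
  have hn' := isUnit_factorial A hn
  have hi' := isUnit_factorial A (show i ≤ c by omega)
  have hj' := isUnit_factorial A (show j ≤ c by omega)
  calc Ring.inverse (n.factorial : R) * (n.choose i : R)
      = Ring.inverse (n.factorial : R) * (n.choose i : R) *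
        ((i.factorial : R) * Ring.inverse (i.factorial : R)) *
        ((j.factorial : R) * Ring.inverse (j.factorial : R)) := by
        rw [Ring.mul_inverse_cancel _ hi', Ring.mul_inverse_cancel _ hj', mul_one, mul_one]
    _ = Ring.inverse (n.factorial : R) * ((n.choose i : R) * (i.factorial : R) * (j.factorial : R)) *
        (Ring.inverse (i.factorial : R) * Ring.inverse (j.factorial : R)) := by ring
    _ = _ := by rw [h1, Ring.inverse_mul_cancel _ hn', one_mul]

/-- the double sum -/
theorem dbl (f : ℕ → ℕ → S) (hf : ∀ i j, c < i + j → f i j = 0) :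
    ∑ n ∈ range (c + 1), Ring.inverse (n.factorial : R) •
      ∑ m ∈ antidiagonal n, n.choose m.1 • f m.1 m.2 =
    ∑ i ∈ range (c + 1), ∑ j ∈ range (c + 1),
      Ring.inverse (i.factorial : R) • Ring.inverse (j.factorial : R) • f i j := by
  rw [← Finset.sum_product' (range (c + 1)) (range (c + 1))
    (fun i j => Ring.inverse (i.factorial : R) • Ring.inverse (j.factorial : R) • f i j)]
  rw [← Finset.sum_filter_add_sum_filter_not (range (c + 1) ×ˢ range (c + 1))
    (fun p => p.1 + p.2 ≤ c)]
  rw [Finset.sum_eq_zero (s := filter (fun p : ℕ × ℕ => ¬ p.1 + p.2 ≤ c) _)]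
  · rw [add_zero, ← Finset.sum_fiberwise_of_maps_to (t := range (c + 1))
      (g := fun p : ℕ × ℕ => p.1 + p.2)]
    · refine Finset.sum_congr rfl fun n hn => ?_
      rw [Finset.mem_range] at hn
      rw [Finset.smul_sum]
      refine Finset.sum_congr ?_ ?_
      · ext ⟨i, j⟩
        simp only [Finset.HasAntidiagonal.mem_antidiagonal, mem_filter, mem_product, mem_range]
        omega
      · rintro ⟨i, j⟩ hij
        simp only [mem_filter, mem_product, mem_range] at hij
        rw [← Nat.cast_smul_eq_nsmul R, smul_smul, smul_smul]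
        simp only
        rw [inv_choose A (by omega) hij.2]
    · rintro ⟨i, j⟩ hij
      simp only [mem_filter, mem_product, mem_range] at hij ⊢
      omega
  · rintro ⟨i, j⟩ hij
    simp only [mem_filter, mem_product, mem_range] at hij
    rw [hf i j (by omega), smul_zero, smul_zero]

omit A in
theorem ex_zero (_ : Fil R S c) : ex R c (0 : S) = 1 := by
  unfold ex
  rw [Finset.sum_range_succ', Finset.sum_eq_zero]
  · simp
  · intro i _
    simp

omit A in
theorem ex_eq (_ : Fil R S c) (x : S) : ex R c x = ∑ i ∈ range c, Ring.inverse ((i + 1).factorial : R) • x ^ (i + 1) + 1 := by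
  unfold ex
  rw [Finset.sum_range_succ']
  simp

theorem ex_sub_one_mem {x : S} (hx : x ∈ A.F 1) : ex R c x - 1 ∈ A.F 1 := by
  rw [ex_eq A, add_sub_cancel_right]
  refine Submodule.sum_mem _ fun i _ => Submodule.smul_mem _ _ ?_
  exact anti A (by omega) (pow_mem A hx (i + 1))

theorem pow_sub_mem {s : ℕ} {x y : S} (hx : x ∈ A.F 1) (hy : y ∈ A.F 1)
    (h : x - y ∈ A.F s) (i : ℕ) : x ^ (i + 1) - y ^ (i + 1) ∈ A.F (s + i) := by
  induction i with
  | zero => simpa using h
  | succ i ih =>
    have h1 : x ^ (i + 1 + 1) - y ^ (i + 1 + 1) =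
        x ^ (i + 1) * (x - y) + (x ^ (i + 1) - y ^ (i + 1)) * y := by
      rw [pow_succ x (i + 1), pow_succ y (i + 1)]
      noncomm_ring
    rw [h1]
    refine Submodule.add_mem _ ?_ ?_
    · have := A.mul _ _ _ _ (pow_mem A hx (i + 1)) h
      rwa [show i + 1 + s = s + (i + 1) by omega] at this
    · have := A.mul _ _ _ _ ih hy
      rwa [show s + i + 1 = s + (i + 1) by omega] at this

theorem ex_sub_eq (x y : S) : ex R c x - ex R c y =
    ∑ i ∈ range c, Ring.inverse ((i + 1).factorial : R) • (x ^ (i + 1) - y ^ (i + 1)) := by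
  rw [ex_eq A, ex_eq A, add_sub_add_right_eq_sub, ← Finset.sum_sub_distrib]
  refine Finset.sum_congr rfl fun i _ => ?_
  rw [smul_sub]

theorem ex_sub_mem {s : ℕ} {x y : S} (hx : x ∈ A.F 1) (hy : y ∈ A.F 1)
    (h : x - y ∈ A.F s) : ex R c x - ex R c y ∈ A.F s := by
  rw [ex_sub_eq A]
  refine Submodule.sum_mem _ fun i _ => Submodule.smul_mem _ _ ?_
  exact anti A (by omega) (pow_sub_mem A hx hy h i)

theorem ex_sub_sub_mem {s : ℕ} {x y : S} (hx : x ∈ A.F 1) (hy : y ∈ A.F 1)
    (h : x - y ∈ A.F s) : (ex R c x - ex R c y) - (x - y) ∈ A.F (s + 1) := by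
  rcases Nat.eq_zero_or_pos c with hc | hc
  · have hx0 := eq_zero A (by omega) hx
    have hy0 := eq_zero A (by omega) hy
    rw [hx0, hy0]
    simp
  · obtain ⟨d, rfl⟩ : ∃ d, c = d + 1 := ⟨c - 1, by omega⟩
    rw [ex_sub_eq A, Finset.sum_range_succ']
    simp only [zero_add, pow_one, Nat.factorial_one, Nat.cast_one, Ring.inverse_one, one_smul,
      add_sub_cancel_right]
    refine Submodule.sum_mem _ fun i _ => Submodule.smul_mem _ _ ?_
    exact anti A (by omega) (pow_sub_mem A hx hy h (i + 1))

theorem ex_sub_mem_iff {s : ℕ} (_hs : 1 ≤ s) {x y : S} (hx : x ∈ A.F 1) (hy : y ∈ A.F 1) :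
    x - y ∈ A.F s ↔ ex R c x - ex R c y ∈ A.F s := by
  refine ⟨ex_sub_mem A hx hy, fun h => ?_⟩
  have key : ∀ t, t + 1 ≤ s → x - y ∈ A.F (t + 1) := by
    intro t
    induction t with
    | zero => intro _; exact Submodule.sub_mem _ hx hy
    | succ t ih =>
      intro ht
      have h1 := ih (by omega)
      have h2 := ex_sub_sub_mem A hx hy h1
      have h3 := anti A ht h
      have h4 := Submodule.sub_mem _ h3 h2
      rwa [sub_sub_cancel] at h4
  have := key (s - 1) (by omega)
  rwa [show s - 1 + 1 = s by omega] at this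

theorem ex_surj {u : S} (hu : u - 1 ∈ A.F 1) : ∃ x ∈ A.F 1, ex R c x = u := by
  have key : ∀ t, ∃ x ∈ A.F 1, u - ex R c x ∈ A.F (t + 1) := by
    intro t
    induction t with
    | zero =>
      refine ⟨0, Submodule.zero_mem _, ?_⟩
      rw [ex_zero A]
      exact hu
    | succ t ih =>
      obtain ⟨x, hx, hxu⟩ := ih
      have hd : u - ex R c x ∈ A.F 1 := anti A (by omega) hxu
      refine ⟨x + (u - ex R c x), Submodule.add_mem _ hx hd, ?_⟩
      have h1 : x + (u - ex R c x) - x ∈ A.F (t + 1) := by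
        rw [add_sub_cancel_left]
        exact hxu
      have h2 := ex_sub_sub_mem A (Submodule.add_mem _ hx hd) hx h1
      rw [add_sub_cancel_left] at h2
      have h3 := Submodule.neg_mem _ h2
      convert h3 using 1
      abel
  obtain ⟨x, hx, h⟩ := key c
  refine ⟨x, hx, ?_⟩
  have := eq_zero A (Nat.lt_succ_self c) h
  exact (sub_eq_zero.mp this).symm

theorem ex_add {x y : S} (hx : x ∈ A.F 1) (hy : y ∈ A.F 1) (h : Commute x y) :
    ex R c (x + y) = ex R c x * ex R c y := by
  have h1 := dbl A (fun i j => x ^ i * y ^ j) (by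
    intro i j hij
    exact eq_zero A hij (A.mul _ _ _ _ (pow_mem A hx i) (pow_mem A hy j)))
  unfold ex
  rw [Finset.sum_mul_sum]
  have h2 : ∀ n, (x + y) ^ n = ∑ m ∈ antidiagonal n, n.choose m.1 • (x ^ m.1 * y ^ m.2) :=
    fun n => h.add_pow' n
  rw [Finset.sum_congr rfl fun n _ => by rw [h2 n], h1]
  refine Finset.sum_congr rfl fun i _ => Finset.sum_congr rfl fun j _ => ?_
  rw [smul_mul_smul_comm, smul_smul]

theorem ex_mul_neg {x : S} (hx : x ∈ A.F 1) : ex R c x * ex R c (-x) = 1 := by
  rw [← ex_add A hx (Submodule.neg_mem _ hx) (Commute.neg_right (Commute.refl x)), add_neg_cancel,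
    ex_zero A]

theorem ex_neg_mul {x : S} (hx : x ∈ A.F 1) : ex R c (-x) * ex R c x = 1 := by
  rw [← ex_add A (Submodule.neg_mem _ hx) hx (Commute.neg_left (Commute.refl x)), neg_add_cancel,
    ex_zero A]

omit A in
theorem adp_eq (x y : S) (n : ℕ) : adp x n y =
    ∑ m ∈ antidiagonal n, n.choose m.1 • (x ^ m.1 * y * (-x) ^ m.2) := by
  have h1 : adp x n y = ((LinearMap.mulLeft ℤ x + LinearMap.mulRight ℤ (-x)) ^ n) y := by
    unfold adp
    rw [Module.End.pow_apply]
    congr 2
    funext w
    simp [cm, sub_eq_add_neg]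
  have h2 := Commute.add_pow' (LinearMap.commute_mulLeft_right (R := ℤ) x (-x)) n
  rw [h1, h2, LinearMap.sum_apply]
  refine Finset.sum_congr rfl fun m _ => ?_
  rw [LinearMap.smul_apply, Module.End.mul_apply, LinearMap.pow_mulLeft, LinearMap.pow_mulRight,
    LinearMap.mulLeft_apply, LinearMap.mulRight_apply, mul_assoc]

theorem ade1 {x y : S} (hx : x ∈ A.F 1) (hy : y ∈ A.F 1) :
    ex R c x * y * ex R c (-x) =
      ∑ i ∈ range (c + 1), Ring.inverse (i.factorial : R) • adp x i y := by
  have h1 := dbl A (fun i j => x ^ i * y * (-x) ^ j) (by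
    intro i j hij
    have h2 := A.mul _ _ _ _ (A.mul _ _ _ _ (pow_mem A hx i) hy)
      (pow_mem A (Submodule.neg_mem _ hx) j)
    exact eq_zero A (by omega) h2)
  rw [Finset.sum_congr rfl fun n _ => by rw [adp_eq x y n], h1]
  unfold ex
  rw [Finset.sum_mul, Finset.sum_mul_sum]
  refine Finset.sum_congr rfl fun i _ => Finset.sum_congr rfl fun j _ => ?_
  rw [smul_mul_assoc, smul_mul_smul_comm, smul_smul]

theorem ade2 {x y : S} (hx : x ∈ A.F 1) :
    ex R c x * ex R c y * ex R c (-x) = ex R c (ex R c x * y * ex R c (-x)) := by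
  have h1 : ∀ n, (ex R c x * y * ex R c (-x)) ^ n = ex R c x * y ^ n * ex R c (-x) := by
    intro n
    induction n with
    | zero => rw [pow_zero, pow_zero, mul_one, ex_mul_neg A hx]
    | succ n ih =>
      rw [pow_succ, ih, pow_succ]
      calc ex R c x * y ^ n * ex R c (-x) * (ex R c x * y * ex R c (-x))
          = ex R c x * y ^ n * (ex R c (-x) * ex R c x) * y * ex R c (-x) := by noncomm_ring
        _ = _ := by rw [ex_neg_mul A hx]; noncomm_ring
  conv_rhs => unfold ex
  change _ = ∑ i ∈ range (c + 1), Ring.inverse (i.factorial : R) • (ex R c x * y * ex R c (-x)) ^ i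
  rw [Finset.sum_congr rfl fun n _ => congrArg (fun w => Ring.inverse (n.factorial : R) • w) (h1 n)]
  have h2 : ex R c y = ∑ i ∈ range (c + 1), Ring.inverse (i.factorial : R) • y ^ i := rfl
  rw [h2, Finset.mul_sum, Finset.sum_mul]
  refine Finset.sum_congr rfl fun n _ => ?_
  rw [mul_smul_comm, smul_mul_assoc]

end basic

theorem t_EXB : S_EXB := by
  intro R S _ _ _ c A
  exact ⟨fun x hx => ex_sub_one_mem A hx, fun s hs x hx y hy => ex_sub_mem_iff A hs hx hy,
    fun u hu => ex_surj A hu⟩

theorem t_EXA : S_EXA := by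
  intro R S _ _ _ c A
  exact ⟨ex_zero A, fun x hx y hy h => ex_add A hx hy h⟩

theorem t_ADE : S_ADE := by
  intro R S _ _ _ c A x hx y hy
  exact ⟨ade1 A hx hy, ade2 A hx⟩

end H12.LZ
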