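import Pool.Agent.H70.LZ.Stm

set_option autoImplicit false

namespace H12.LZ

open H70.LZ H2.KL

section quot

variable {k : Type} [LieRing k] (b : AddSubgroup k) (hb : IsIdl b)

/-- the bracket of the quotient -/
def qbr (hb : IsIdl b) (x y : k ⧸ b) : k ⧸ b :=
  Quotient.liftOn₂' x y (fun a c => ((⁅a, c⁆ : k) : k ⧸ b)) (by
    intro a₁ c₁ a₂ c₂ h1 h2
    rw [QuotientAddGroup.leftRel_apply] at h1 h2
    rw [QuotientAddGroup.eq]
    have h3 : -⁅a₁, c₁⁆ + ⁅a₂, c₂⁆ = -⁅c₂, -a₁ + a₂⁆ + ⁅a₁, -c₁ + c₂⁆ := by
      rw [lie_add, lie_neg, lie_add, lie_neg, ← lie_skew c₂ a₁, ← lie_skew c₂ a₂]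
      abel
    rw [h3]
    exact add_mem (neg_mem (hb _ _ h1)) (hb _ _ h2))

theorem qbr_mk (x y : k) : qbr b hb (x : k ⧸ b) (y : k ⧸ b) = ((⁅x, y⁆ : k) : k ⧸ b) := rfl

/-- the quotient Lie ring -/
@[reducible] def qLie : LieRing (k ⧸ b) :=
  { (inferInstance : AddCommGroup (k ⧸ b)) with
    bracket := qbr b hb
    add_lie := by
      intro x y z
      induction x using QuotientAddGroup.induction_on with | H x
      induction y using QuotientAddGroup.induction_on with | H y
      induction z using QuotientAddGroup.induction_on with | H z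
      change qbr b hb ((x + y : k) : k ⧸ b) (z : k ⧸ b) = qbr b hb (x : k ⧸ b) z + qbr b hb (y : k ⧸ b) z
      rw [qbr_mk, qbr_mk, qbr_mk, add_lie]
      rfl
    lie_add := by
      intro x y z
      induction x using QuotientAddGroup.induction_on with | H x
      induction y using QuotientAddGroup.induction_on with | H y
      induction z using QuotientAddGroup.induction_on with | H z
      change qbr b hb (x : k ⧸ b) ((y + z : k) : k ⧸ b) = qbr b hb (x : k ⧸ b) y + qbr b hb (x : k ⧸ b) z
      rw [qbr_mk, qbr_mk, qbr_mk, lie_add]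
      rfl
    lie_self := by
      intro x
      induction x using QuotientAddGroup.induction_on with | H x
      change qbr b hb (x : k ⧸ b) (x : k ⧸ b) = 0
      rw [qbr_mk, lie_self]
      rfl
    leibniz_lie := by
      intro x y z
      induction x using QuotientAddGroup.induction_on with | H x
      induction y using QuotientAddGroup.induction_on with | H y
      induction z using QuotientAddGroup.induction_on with | H z
      change qbr b hb (x : k ⧸ b) (qbr b hb (y : k ⧸ b) z) =
        qbr b hb (qbr b hb (x : k ⧸ b) y) z + qbr b hb (y : k ⧸ b) (qbr b hb (x : k ⧸ b) z)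
      rw [qbr_mk, qbr_mk, qbr_mk, qbr_mk, qbr_mk, qbr_mk, leibniz_lie]
      rfl }

end quot

theorem t_QUB : S_QUB := by
  intro H K _ _ θ hθ hH
  obtain ⟨k, iL, iF, L, hgood⟩ := hH
  obtain ⟨b, hbsub, hbmem, hbn⟩ := hgood θ.ker
  obtain ⟨hbi, hbc⟩ := hbn inferInstance
  have hcos : ∀ x y : k, x - y ∈ b ↔ θ (L.e x) = θ (L.e y) := by
    intro x y
    rw [hbc, MonoidHom.mem_ker, map_mul, map_inv, inv_mul_eq_one]
    exact eq_comm
  let iQ : LieRing (k ⧸ b) := qLie b hbi
  have hlie : ∀ x y : k, ⁅(x : k ⧸ b), (y : k ⧸ b)⁆ = ((⁅x, y⁆ : k) : k ⧸ b) := fun x y => rfl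
  -- the bijection
  let f : k ⧸ b → K := Quotient.lift (fun x => θ (L.e x)) (by
    intro x y h
    have h1 : -x + y ∈ b := QuotientAddGroup.leftRel_apply.mp h
    have h2 : y - x ∈ b := by
      have : y - x = -x + y := by abel
      rw [this]; exact h1
    exact ((hcos y x).mp h2).symm)
  have hf : ∀ x : k, f (x : k ⧸ b) = θ (L.e x) := fun x => rfl
  have hfinj : Function.Injective f := by
    intro x y h
    induction x using QuotientAddGroup.induction_on with | H x
    induction y using QuotientAddGroup.induction_on with | H y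
    rw [hf, hf] at h
    have h1 := (hcos y x).mpr h.symm
    rw [QuotientAddGroup.eq]
    have : -x + y = y - x := by abel
    rw [this]
    exact h1
  have hfsurj : Function.Surjective f := by
    intro g
    obtain ⟨h, rfl⟩ := hθ g
    exact ⟨(L.e.symm h : k), by rw [hf, Equiv.apply_symm_apply]⟩
  let e' : (k ⧸ b) ≃ K := Equiv.ofBijective f ⟨hfinj, hfsurj⟩
  have he' : ∀ x : k, e' (x : k ⧸ b) = θ (L.e x) := fun x => rfl
  have hAdb : ∀ h : H, b ≤ b.comap (L.Ad h) := by
    intro h x hx
    rw [AddSubgroup.mem_comap, hbmem, L.e_Ad]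
    exact (inferInstance : θ.ker.Normal).conj_mem _ ((hbmem x).mp hx) h
  let Ad' : K → ((k ⧸ b) →+ (k ⧸ b)) := fun g =>
    QuotientAddGroup.map b b (L.Ad (Function.surjInv hθ g)) (hAdb _)
  have hAd'1 : ∀ (g : K) (x : k ⧸ b), e' (Ad' g x) = g * e' x * g⁻¹ := by
    intro g x
    induction x using QuotientAddGroup.induction_on with | H x
    change e' ((L.Ad (Function.surjInv hθ g) x : k) : k ⧸ b) = _
    rw [he', L.e_Ad, map_mul, map_mul, map_inv, Function.surjInv_eq hθ g, he']
  have hAd' : ∀ (h : H) (x : k), Ad' (θ h) (x : k ⧸ b) = ((L.Ad h x : k) : k ⧸ b) := by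
    intro h x
    apply e'.injective
    rw [hAd'1, he', he', L.e_Ad, map_mul, map_mul, map_inv]
  have hderle : ∀ h' : AddSubgroup (k ⧸ b), ∀ w ∈ der (h'.comap (QuotientAddGroup.mk' b)),
      ((w : k) : k ⧸ b) ∈ der h' := by
    intro h' w hw
    have : der (h'.comap (QuotientAddGroup.mk' b)) ≤ (der h').comap (QuotientAddGroup.mk' b) := by
      unfold der
      rw [AddSubgroup.closure_le]
      rintro _ ⟨a, ha, d, hd, rfl⟩
      exact AddSubgroup.subset_closure ⟨_, ha, _, hd, rfl⟩
    exact this hw
  have hlcs : ∀ n, lcs (k ⧸ b) n ≤ (lcs k n).map (QuotientAddGroup.mk' b) := by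
    intro n
    induction n with
    | zero =>
      intro x _
      induction x using QuotientAddGroup.induction_on with | H x
      exact ⟨x, AddSubgroup.mem_top x, rfl⟩
    | succ n ih =>
      change AddSubgroup.closure _ ≤ _
      rw [AddSubgroup.closure_le]
      rintro _ ⟨a, d, hd, rfl⟩
      obtain ⟨d', hd', rfl⟩ := ih hd
      induction a using QuotientAddGroup.induction_on with | H a
      exact ⟨⁅a, d'⁆, AddSubgroup.subset_closure ⟨a, d', hd', rfl⟩, rfl⟩
  let L' : LExp K (k ⧸ b) :=
    { e := e'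
      Ad := Ad'
      e_zero := by
        change θ (L.e 0) = 1
        rw [L.e_zero, map_one]
      e_neg := by
        intro x
        induction x using QuotientAddGroup.induction_on with | H x
        change θ (L.e (-x)) = (θ (L.e x))⁻¹
        rw [L.e_neg, map_inv]
      e_Ad := hAd'1
      mul := by
        intro h' hh' x hx y hy
        induction x using QuotientAddGroup.induction_on with | H x
        induction y using QuotientAddGroup.induction_on with | H y
        have h1 : IsSub (h'.comap (QuotientAddGroup.mk' b)) := by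
          intro u hu v hv
          exact hh' _ hu _ hv
        have h2 := hderle h' _ (L.mul _ h1 x hx y hy)
        have h3 : e'.symm (e' (x : k ⧸ b) * e' (y : k ⧸ b)) =
            ((L.e.symm (L.e x * L.e y) : k) : k ⧸ b) := by
          rw [Equiv.symm_apply_eq, he', he', he', Equiv.apply_symm_apply, map_mul]
        rw [h3]
        exact h2
      range_ad := by
        intro x
        induction x using QuotientAddGroup.induction_on with | H x
        have h0 := L.range_ad x
        apply Set.Subset.antisymm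
        · rintro _ ⟨w, rfl⟩
          induction w using QuotientAddGroup.induction_on with | H w
          have h1 : ⁅x, w⁆ ∈ Set.range (fun w => L.Ad (L.e x) w - w) := by
            rw [← h0]; exact ⟨w, rfl⟩
          obtain ⟨v, hv⟩ := h1
          refine ⟨(v : k ⧸ b), ?_⟩
          change Ad' (θ (L.e x)) (v : k ⧸ b) - (v : k ⧸ b) = ((⁅x, w⁆ : k) : k ⧸ b)
          rw [hAd', ← hv]
          rfl
        · rintro _ ⟨w, rfl⟩
          induction w using QuotientAddGroup.induction_on with | H w
          have h1 : L.Ad (L.e x) w - w ∈ Set.range (fun w => ⁅x, w⁆) := by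
            rw [h0]; exact ⟨w, rfl⟩
          obtain ⟨v, hv⟩ := h1
          refine ⟨(v : k ⧸ b), ?_⟩
          change ((⁅x, v⁆ : k) : k ⧸ b) = Ad' (θ (L.e x)) (w : k ⧸ b) - (w : k ⧸ b)
          rw [hAd']
          have hv' : ⁅x, v⁆ = L.Ad (L.e x) w - w := hv
          rw [hv']
          rfl
      nil := by
        obtain ⟨n, hn⟩ := L.nil
        refine ⟨n, ?_⟩
        rw [eq_bot_iff]
        refine (hlcs n).trans ?_
        rw [hn, AddSubgroup.map_bot] }
  refine ⟨k ⧸ b, iQ, inferInstance, L', ?_⟩
  intro B'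
  obtain ⟨d, hdsub, hdmem, hdn⟩ := hgood (B'.comap θ)
  have hbd : b ≤ d := by
    intro x hx
    rw [hdmem, Subgroup.mem_comap]
    have := (hbmem x).mp hx
    rw [MonoidHom.mem_ker] at this
    rw [this]
    exact one_mem _
  have hmem : ∀ x : k, (x : k ⧸ b) ∈ d.map (QuotientAddGroup.mk' b) ↔ x ∈ d := by
    intro x
    constructor
    · rintro ⟨y, hy, hyx⟩
      have h1 : (y : k ⧸ b) = (x : k ⧸ b) := hyx
      rw [QuotientAddGroup.eq] at h1
      have h2 := add_mem hy (hbd h1)
      rwa [add_neg_cancel_left] at h2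
    · intro h
      exact ⟨x, h, rfl⟩
  refine ⟨d.map (QuotientAddGroup.mk' b), ?_, ?_, ?_⟩
  · rintro _ ⟨x, hx, rfl⟩ _ ⟨y, hy, rfl⟩
    exact ⟨⁅x, y⁆, hdsub x hx y hy, rfl⟩
  · intro x
    induction x using QuotientAddGroup.induction_on with | H x
    rw [hmem, hdmem]
    rfl
  · intro hB'
    obtain ⟨h1, h2⟩ := hdn (Subgroup.Normal.comap hB' θ)
    refine ⟨?_, ?_⟩
    · intro x y hy
      induction x using QuotientAddGroup.induction_on with | H x
      obtain ⟨y, hy, rfl⟩ := hy
      exact ⟨⁅x, y⁆, h1 x y hy, rfl⟩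
    · intro x y
      induction x using QuotientAddGroup.induction_on with | H x
      induction y using QuotientAddGroup.induction_on with | H y
      have h3 : ((x : k ⧸ b) - (y : k ⧸ b)) = ((x - y : k) : k ⧸ b) := rfl
      rw [h3, hmem, h2, Subgroup.mem_comap, map_mul, map_inv]
      rfl

end H12.LZ
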